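import Mathlib
import Pool.Agent.Helper90.ST.Defs
import Pool.Agent.Helper52.ST.EVS

set_option autoImplicit false

/-!
# Piece EVR: the trace parity argument
-/

namespace Pool.Agent.Helper90.ST

/-- A character of `S` trivial on `N` and nontrivial at `k`. -/
theorem evr_exists_char {G : Type} [Group G] [Finite G] (S N : Subgroup G) (hN : N.Normal)
    (hcomm : ∀ x ∈ S, ∀ y ∈ S, x⁻¹ * y⁻¹ * x * y ∈ N) (k : S) (hk : (k : G) ∉ N) :
    ∃ ψ : S →* ℂˣ, (∀ n : S, (n : G) ∈ N → ψ n = 1) ∧ ψ k ≠ 1 := by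
  classical
  have hn' : (N.subgroupOf S).Normal := hN.subgroupOf S
  let _ : CommGroup (S ⧸ N.subgroupOf S) :=
    { (inferInstance : Group (S ⧸ N.subgroupOf S)) with
      mul_comm := by
        intro a b
        induction a using QuotientGroup.induction_on with
        | H x =>
          induction b using QuotientGroup.induction_on with
          | H y =>
            rw [← QuotientGroup.mk_mul, ← QuotientGroup.mk_mul, QuotientGroup.eq,
              Subgroup.mem_subgroupOf]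
            have := hcomm y y.2 x x.2
            simpa [mul_assoc] using this }
  have hne : (QuotientGroup.mk k : S ⧸ N.subgroupOf S) ≠ 1 := by
    rw [Ne, QuotientGroup.eq_one_iff, Subgroup.mem_subgroupOf]
    exact hk
  obtain ⟨φ, hφ⟩ := CommGroup.exists_apply_ne_one_of_hasEnoughRootsOfUnity
    (S ⧸ N.subgroupOf S) ℂ hne
  refine ⟨φ.comp (QuotientGroup.mk' _), ?_, hφ⟩
  intro n hn
  have h1 : QuotientGroup.mk' (N.subgroupOf S) n = 1 := by
    rw [QuotientGroup.mk'_apply, QuotientGroup.eq_one_iff, Subgroup.mem_subgroupOf]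
    exact hn
  rw [MonoidHom.comp_apply, h1, map_one]

theorem evr_trace {m : Type} [Fintype m] [DecidableEq m] (Q : Matrix m m ℂ) (hQ : Q * Q = Q) :
    ∃ k : ℕ, Q.trace = k := by
  have h1 : IsIdempotentElem (Matrix.toLin' Q) := by
    change Matrix.toLin' Q * Matrix.toLin' Q = Matrix.toLin' Q
    rw [Module.End.mul_eq_comp, ← Matrix.toLin'_mul, hQ]
  have h2 := (LinearMap.IsIdempotentElem.isProj_range _ h1).trace
  exact ⟨_, by rw [← h2, Matrix.trace_toLin'_eq]⟩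

open Classical in
/-- the function `a σ ↦ ψ σ`, extended by `0` -/
noncomputable def evrPsi {G : Type} [Group G] (A0 S : Subgroup G) (ψ : S →* ℂˣ) (z : G) : ℂ :=
  if h : ∃ σ : S, ∃ a ∈ A0, z = a * σ then (ψ h.choose : ℂ) else 0

section psi

variable {G : Type} [Group G] {A0 S : Subgroup G} {ψ : S →* ℂˣ}

theorem evrPsi_mul (hd : ∀ a ∈ A0, a ∈ S → a = 1) (a : G) (ha : a ∈ A0) (σ : S) :
    evrPsi A0 S ψ (a * σ) = ψ σ := by
  classical
  have hex : ∃ τ : S, ∃ b ∈ A0, a * (σ : G) = b * τ := ⟨σ, a, ha, rfl⟩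
  unfold evrPsi
  rw [dif_pos hex]
  obtain ⟨b, hb, hab⟩ := hex.choose_spec
  have h1 : b⁻¹ * a = (hex.choose : G) * (σ : G)⁻¹ := by
    rw [inv_mul_eq_iff_eq_mul, ← mul_assoc, ← hab]
    group
  have h2 : b⁻¹ * a = 1 := hd _ (A0.mul_mem (A0.inv_mem hb) ha)
    (by rw [h1]; exact S.mul_mem hex.choose.2 (S.inv_mem σ.2))
  have h3 : (hex.choose : G) = σ := by
    rw [h1] at h2
    exact mul_inv_eq_one.1 h2
  rw [Subtype.ext h3]

theorem evrPsi_zero (z : G) (hz : ¬ ∃ σ : S, ∃ a ∈ A0, z = a * σ) : evrPsi A0 S ψ z = 0 := by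
  classical
  unfold evrPsi
  rw [dif_neg hz]

theorem evrPsi_left (hd : ∀ a ∈ A0, a ∈ S → a = 1) (hS : S.Normal)
    (hconj : ∀ (g : G) (σ τ : S), (τ : G) = g * σ * g⁻¹ → ψ τ = ψ σ)
    (a : G) (ha : a ∈ A0) (σ : S) (g : G) :
    evrPsi A0 S ψ (a * σ * g) = ψ σ * evrPsi A0 S ψ g := by
  by_cases hg : ∃ σ' : S, ∃ a' ∈ A0, g = a' * σ'
  · obtain ⟨σ', a', ha', rfl⟩ := hg
    rw [evrPsi_mul hd a' ha' σ']
    have hm : a'⁻¹ * σ * a' ∈ S := by
      have := hS.conj_mem σ σ.2 a'⁻¹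
      rwa [inv_inv] at this
    have h1 : a * (σ : G) * (a' * σ') = (a * a') * ((⟨a'⁻¹ * σ * a', hm⟩ * σ' : S) : G) := by
      rw [Subgroup.coe_mul]
      group
    rw [h1, evrPsi_mul hd _ (A0.mul_mem ha ha'), map_mul, Units.val_mul,
      hconj a'⁻¹ σ ⟨a'⁻¹ * σ * a', hm⟩ (by rw [inv_inv])]
  · rw [evrPsi_zero g hg, mul_zero]
    apply evrPsi_zero
    rintro ⟨σ', a', ha', h⟩
    apply hg
    have hm : (a⁻¹ * a')⁻¹ * σ⁻¹ * (a⁻¹ * a') ∈ S := by
      have := hS.conj_mem (σ : G)⁻¹ (S.inv_mem σ.2) (a⁻¹ * a')⁻¹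
      rwa [inv_inv] at this
    refine ⟨⟨(a⁻¹ * a')⁻¹ * (σ : G)⁻¹ * (a⁻¹ * a'), hm⟩ * σ', a⁻¹ * a',
      A0.mul_mem (A0.inv_mem ha) ha', ?_⟩
    rw [Subgroup.coe_mul]
    have h2 : g = (σ : G)⁻¹ * a⁻¹ * (a' * σ') := by
      rw [← h]
      group
    rw [h2]
    group

end psi

section main

variable {G ι : Type} [Group G] {A : ι → Subgroup G} {S : Subgroup G} {s t q : ℕ}

theorem even_rank (h : IsKF A S q q) {n : ℕ} (hn : 1 ≤ n) (hq : q = 2 ^ n)
    (hsq : ∀ x : G, x * x ∈ S) (N K : Subgroup G) (hN : N.Normal) (hK : K.Normal)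
    (hNK : N ≤ K) (hKS : K ≤ S) (hidx : N.relIndex K = 2)
    (hcK : ∀ x y : G, x⁻¹ * y⁻¹ * x * y ∈ K)
    (hcen : ∀ σ ∈ S, ∀ g : G, σ⁻¹ * g⁻¹ * σ * g ∈ N) (i₀ : ι)
    (hnd : ∀ x ∈ A i₀, x ≠ 1 → ∃ g : G, x⁻¹ * g⁻¹ * x * g ∉ N) : False := by
  classical
  have hq1 : 1 < q := by
    rw [hq]
    exact Nat.one_lt_two_pow (by omega)
  have hfin : Finite G := by
    apply Nat.finite_of_card_ne_zero
    rw [h.cardG]
    positivity
  let _ : Fintype G := Fintype.ofFinite G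
  have hS := h.normS
  -- another index
  obtain ⟨j₀, hj₀⟩ : ∃ j₀, j₀ ≠ i₀ := by
    have hι : Finite ι := by
      apply Nat.finite_of_card_ne_zero
      rw [h.cardI]
      omega
    have : Nontrivial ι := by
      rw [← Finite.one_lt_card_iff_nontrivial, h.cardI]
      omega
    exact exists_ne i₀
  have hinter : ∀ i, ∀ a ∈ A i, a ∈ S → a = 1 := by
    intro i a ha haS
    obtain ⟨j, hj⟩ : ∃ j, j ≠ i := by
      by_cases hi : i = i₀
      · exact ⟨j₀, by rw [hi]; exact hj₀⟩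
      · exact ⟨i₀, fun hh => hi hh.symm⟩
    exact h.K2 i j hj.symm a ha 1 (A j).one_mem (by rwa [mul_one])
  -- two elements of `K` outside `N`
  have hprodN : ∀ x ∈ K, ∀ y ∈ K, x ∉ N → y ∉ N → x * y ∈ N := by
    intro x hx y hy hxN hyN
    have h1 : (N.subgroupOf K).index = 2 := hidx
    have h2 := (Subgroup.mul_mem_iff_of_index_two h1 (a := ⟨x, hx⟩) (b := ⟨y, hy⟩)).2 (by
      rw [Subgroup.mem_subgroupOf, Subgroup.mem_subgroupOf]
      simp [hxN, hyN])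
    rw [Subgroup.mem_subgroupOf] at h2
    exact h2
  obtain ⟨k₀, hk₀K, hk₀N⟩ : ∃ k ∈ K, k ∉ N := by
    by_contra hcon
    push Not at hcon
    have h1 : N = K := le_antisymm hNK hcon
    rw [h1, Subgroup.relIndex_self] at hidx
    omega
  obtain ⟨ψ, hψN, hψk⟩ := evr_exists_char S N hN (fun x hx y _ => hcen x hx y)
    ⟨k₀, hKS hk₀K⟩ hk₀N
  -- values on K \ N
  have hψK : ∀ (k : S), (k : G) ∈ K → (k : G) ∉ N → (ψ k : ℂ) = -1 := by
    have h0 : (ψ ⟨k₀, hKS hk₀K⟩ : ℂ) = -1 := by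
      have h1 : ψ (⟨k₀, hKS hk₀K⟩ * ⟨k₀, hKS hk₀K⟩) = 1 :=
        hψN _ (hprodN _ hk₀K _ hk₀K hk₀N hk₀N)
      rw [map_mul] at h1
      have h2 : (ψ ⟨k₀, hKS hk₀K⟩ : ℂ) * (ψ ⟨k₀, hKS hk₀K⟩ : ℂ) = 1 := by
        rw [← Units.val_mul, h1, Units.val_one]
      rcases mul_self_eq_one_iff.1 h2 with h3 | h3
      · exact absurd (Units.ext h3) hψk
      · exact h3
    intro k hkK hkN
    have h1 : ψ (k * ⟨k₀, hKS hk₀K⟩) = 1 := hψN _ (hprodN _ hkK _ hk₀K hkN hk₀N)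
    rw [map_mul] at h1
    have h2 : (ψ k : ℂ) * (ψ ⟨k₀, hKS hk₀K⟩ : ℂ) = 1 := by
      rw [← Units.val_mul, h1, Units.val_one]
    rw [h0] at h2
    linear_combination -h2
  have hconj : ∀ (g : G) (σ τ : S), (τ : G) = g * σ * g⁻¹ → ψ τ = ψ σ := by
    intro g σ τ hτ
    have h1 : ψ (σ⁻¹ * τ) = 1 := by
      apply hψN
      rw [Subgroup.coe_mul, hτ, Subgroup.coe_inv]
      have := hcen σ σ.2 g⁻¹
      rw [inv_inv] at this
      simpa [mul_assoc] using this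
    rw [map_mul, map_inv] at h1
    exact (inv_mul_eq_one.1 h1).symm
  set A0 := A i₀ with hA0
  have hd0 : ∀ a ∈ A0, a ∈ S → a = 1 := hinter i₀
  set Ψ := evrPsi A0 S ψ with hΨ
  have hΨmul : ∀ a ∈ A0, ∀ σ : S, Ψ (a * σ) = ψ σ := fun a ha σ => evrPsi_mul hd0 a ha σ
  have hΨleft : ∀ a ∈ A0, ∀ (σ : S) (g : G), Ψ (a * σ * g) = ψ σ * Ψ g :=
    fun a ha σ g => evrPsi_left hd0 hS hconj a ha σ g
  have hΨ1 : Ψ 1 = 1 := by
    have := hΨmul 1 A0.one_mem 1
    simpa using this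
  have hΨS : ∀ (σ : S) (g : G), Ψ (σ * g) = ψ σ * Ψ g := by
    intro σ g
    have := hΨleft 1 A0.one_mem σ g
    rwa [one_mul] at this
  have hsumψ : ∑ σ : S, (ψ σ : ℂ) = 0 := by
    have h1 : ∑ σ : S, (ψ (⟨k₀, hKS hk₀K⟩ * σ) : ℂ) = ∑ σ : S, (ψ σ : ℂ) :=
      Equiv.sum_comp (Equiv.mulLeft (⟨k₀, hKS hk₀K⟩ : S)) (fun σ => (ψ σ : ℂ))
    simp only [map_mul, Units.val_mul] at h1
    rw [← Finset.mul_sum, hψK _ hk₀K hk₀N] at h1
    linear_combination (-1/2 : ℂ) * h1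
  have hΨk : ∀ g, Ψ (k₀ * g) = -1 * Ψ g := by
    intro g
    have := hΨS ⟨k₀, hKS hk₀K⟩ g
    rwa [hψK _ hk₀K hk₀N] at this
  have hsumG : ∑ g : G, Ψ g = 0 := by
    have h1 : ∑ g : G, Ψ (k₀ * g) = ∑ g : G, Ψ g :=
      Equiv.sum_comp (Equiv.mulLeft k₀) (fun g => Ψ g)
    simp only [hΨk] at h1
    rw [← Finset.mul_sum] at h1
    linear_combination (-1/2 : ℂ) * h1
  set B := A j₀ with hB
  -- uniqueness of the decomposition `a σ b`
  have huniq : ∀ b : B, ∀ b' : B, (∃ σ : S, ∃ a ∈ A0, (b : G) * (b' : G)⁻¹ = a * σ) → b = b' := by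
    rintro b b' ⟨σ, a, ha, hab⟩
    have h1 : a⁻¹ * ((b : G) * (b' : G)⁻¹) ∈ S := by
      rw [hab, inv_mul_cancel_left]
      exact σ.2
    have h2 := h.K2 i₀ j₀ hj₀.symm a⁻¹ (A0.inv_mem ha) _ (B.mul_mem b.2 (B.inv_mem b'.2)) h1
    rw [h2, one_mul] at h1
    have h3 := hinter j₀ _ (B.mul_mem b.2 (B.inv_mem b'.2)) h1
    exact Subtype.ext (mul_inv_eq_one.1 h3)
  -- existence of the decomposition, by counting
  have hdec : ∀ g : G, ∃ a ∈ A0, ∃ σ : S, ∃ b : B, g = a * σ * b := by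
    let f : A0 × S × B → G := fun x => x.1 * x.2.1 * x.2.2
    have hf : Function.Injective f := by
      rintro ⟨a, σ, b⟩ ⟨a', σ', b'⟩ hh
      simp only [f] at hh
      have hm : ((a' : G)⁻¹ * a)⁻¹ * (σ' : G)⁻¹ * ((a' : G)⁻¹ * a) * σ ∈ S := by
        apply S.mul_mem _ σ.2
        have := hS.conj_mem (σ' : G)⁻¹ (S.inv_mem σ'.2) ((a' : G)⁻¹ * a)⁻¹
        rwa [inv_inv] at this
      have hbb : b' = b := by
        apply huniq
        refine ⟨⟨_, hm⟩, (a' : G)⁻¹ * a, A0.mul_mem (A0.inv_mem a'.2) a.2, ?_⟩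
        have h1 : (b' : G) = (a' * σ' : G)⁻¹ * (a * σ * b) := by
          rw [hh]
          group
        simp only
        rw [h1]
        group
      subst hbb
      have h2 : (a : G) * σ = a' * σ' := mul_right_cancel hh
      have h3 : (a' : G)⁻¹ * a = σ' * (σ : G)⁻¹ := by
        rw [inv_mul_eq_iff_eq_mul, ← mul_assoc, ← h2]
        group
      have h4 : (a' : G)⁻¹ * a = 1 := hd0 _ (A0.mul_mem (A0.inv_mem a'.2) a.2)
        (by rw [h3]; exact S.mul_mem σ'.2 (S.inv_mem σ.2))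
      have h5 : a = a' := Subtype.ext (inv_mul_eq_one.1 h4).symm
      subst h5
      have h6 : σ = σ' := Subtype.ext (mul_left_cancel h2)
      rw [h6]
    have hbij : Function.Bijective f := by
      apply hf.bijective_of_nat_card_le
      rw [h.cardG, Nat.card_prod, Nat.card_prod, h.cardA, h.cardA, h.cardS]
      apply le_of_eq
      ring
    intro g
    obtain ⟨⟨a, σ, b⟩, hx⟩ := hbij.2 g
    exact ⟨a, a.2, σ, b, hx.symm⟩
  have hΨB : ∀ b b' : B, Ψ ((b : G) * (b' : G)⁻¹) = if b = b' then 1 else 0 := by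
    intro b b'
    split_ifs with hbb
    · rw [hbb, mul_inv_cancel, hΨ1]
    · exact evrPsi_zero _ (fun hh => hbb (huniq b b' hh))
  have hker : ∀ g k : G, ∑ b : B, Ψ (g * (b : G)⁻¹) * Ψ (b * k) = Ψ (g * k) := by
    intro g k
    obtain ⟨a, ha, σ, b₁, rfl⟩ := hdec g
    rw [Finset.sum_eq_single b₁]
    · have h1 : a * (σ : G) * b₁ * (b₁ : G)⁻¹ = a * σ := by group
      have h2 : a * (σ : G) * b₁ * k = a * σ * (b₁ * k) := by group
      rw [h1, h2, hΨmul a ha, hΨleft a ha]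
    · intro b _ hb
      have h1 : a * (σ : G) * b₁ * (b : G)⁻¹ = a * σ * (b₁ * (b : G)⁻¹) := by group
      rw [h1, hΨleft a ha, hΨB, if_neg (fun hh => hb hh.symm)]
      ring
    · intro hh
      exact absurd (Finset.mem_univ _) hh
  let T : Matrix B B ℂ := fun b b' => ∑ x ∈ EE A, Ψ (b * x * (b' : G)⁻¹)
  have hTT : T * T = ((q : ℂ) ^ 2) • (1 : Matrix B B ℂ) := by
    ext b b''
    rw [Matrix.mul_apply, Matrix.smul_apply, Matrix.one_apply]
    have h1 : ∑ b' : B, T b b' * T b' b'' =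
        ∑ x ∈ EE A, ∑ y ∈ EE A, Ψ (b * (x * y) * (b'' : G)⁻¹) := by
      simp only [T, Finset.sum_mul_sum]
      rw [Finset.sum_comm]
      apply Finset.sum_congr rfl
      intro x _
      rw [Finset.sum_comm]
      apply Finset.sum_congr rfl
      intro y _
      have h2 := hker (b * x) (y * (b'' : G)⁻¹)
      have h3 : (b : G) * (x * y) * (b'' : G)⁻¹ = b * x * (y * (b'' : G)⁻¹) := by group
      rw [h3, ← h2]
      apply Finset.sum_congr rfl
      intro b' _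
      congr 2
      group
    rw [h1, even_rds h hq1 (fun z => Ψ (b * z * (b'' : G)⁻¹))]
    have h2 : ∑ g : G, Ψ (b * g * (b'' : G)⁻¹) = 0 := by
      rw [← hsumG]
      exact Equiv.sum_comp ((Equiv.mulLeft (b : G)).trans (Equiv.mulRight (b'' : G)⁻¹))
        (fun g => Ψ g)
    have h3 : ∑ σ ∈ SF S, Ψ (b * σ * (b'' : G)⁻¹) = 0 := by
      rw [Finset.sum_subtype (p := fun x => x ∈ S) (SF S) (fun x => mem_SF)]
      have h4 : ∀ σ : S, Ψ (b * (σ : G) * (b'' : G)⁻¹) =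
          (ψ σ : ℂ) * Ψ ((b : G) * (b'' : G)⁻¹) := by
        intro σ
        have hm := hS.conj_mem σ σ.2 b
        have h5 := hΨS ⟨_, hm⟩ ((b : G) * (b'' : G)⁻¹)
        rw [hconj b σ ⟨_, hm⟩ rfl] at h5
        rw [← h5]
        congr 1
        simp only
        group
      simp only [h4]
      rw [← Finset.sum_mul]
      have h6 : ∑ i : S, (ψ i : ℂ) = 0 := hsumψ
      rw [show (∑ i : {x // x ∈ S}, (ψ i : ℂ)) = 0 from h6, zero_mul]
    rw [h2, h3, mul_one, hΨB]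
    simp
  -- the trace
  have hcc : ∀ x ∈ A0, ∀ g : G, x⁻¹ * g * x * g⁻¹ ∈ K := by
    intro x _ g
    have := hcK x g⁻¹
    rwa [inv_inv] at this
  have hΨc : ∀ (x : G) (hx : x ∈ A0) (g : G), Ψ (g * x * g⁻¹) = ψ ⟨_, hKS (hcc x hx g)⟩ := by
    intro x hx g
    rw [← hΨmul x hx]
    congr 1
    simp only
    group
  have hmulc : ∀ x ∈ A0, ∀ g k : G,
      Ψ (g * k * x * (g * k)⁻¹) = Ψ (g * x * g⁻¹) * Ψ (k * x * k⁻¹) := by
    intro x hx g k
    rw [hΨc x hx, hΨc x hx, hΨc x hx, ← Units.val_mul]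
    have hm := hS.conj_mem _ (hKS (hcc x hx k)) g
    rw [← hconj g ⟨_, hKS (hcc x hx k)⟩ ⟨_, hm⟩ rfl, ← map_mul]
    congr 2
    apply Subtype.ext
    rw [Subgroup.coe_mul]
    simp only
    group
  have hzero : ∀ x ∈ A0, x ≠ 1 → ∑ b : B, Ψ (b * x * (b : G)⁻¹) = 0 := by
    intro x hx hx1
    obtain ⟨g, hg⟩ := hnd x hx hx1
    have h1 : Ψ (g⁻¹ * x * g⁻¹⁻¹) = -1 := by
      rw [hΨc x hx]
      apply hψK
      · exact hcc x hx g⁻¹
      · simp only
        rwa [inv_inv]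
    obtain ⟨a, ha, σ, b₀, hab⟩ := hdec g⁻¹
    rw [hab, hmulc x hx, hmulc x hx] at h1
    have h2 : Ψ (a * x * a⁻¹) = 1 := by
      rw [hΨc x hx]
      have h3 := hd0 _ (A0.mul_mem (A0.mul_mem (A0.mul_mem (A0.inv_mem hx) ha) hx) (A0.inv_mem ha))
        (hKS (hcc x hx a))
      have h4 : (⟨x⁻¹ * a * x * a⁻¹, hKS (hcc x hx a)⟩ : S) = 1 := Subtype.ext h3
      rw [h4, map_one, Units.val_one]
    have h5 : Ψ (σ * x * (σ : G)⁻¹) = 1 := by
      rw [hΨc x hx]
      have h6 : ψ ⟨_, hKS (hcc x hx σ)⟩ = 1 := by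
        apply hψN
        have h9 := hN.conj_mem _ (hcen σ σ.2 x) σ
        have h10 : (σ : G) * ((σ : G)⁻¹ * x⁻¹ * σ * x) * (σ : G)⁻¹ =
            x⁻¹ * σ * x * (σ : G)⁻¹ := by group
        rw [h10] at h9
        exact h9
      rw [h6, Units.val_one]
    rw [h2, h5, one_mul, one_mul] at h1
    have h13 : ∑ b : B, Ψ (((b * b₀ : B) : G) * x * ((b * b₀ : B) : G)⁻¹) =
        ∑ b : B, Ψ (b * x * (b : G)⁻¹) :=
      Equiv.sum_comp (Equiv.mulRight b₀) (fun b : B => Ψ (b * x * (b : G)⁻¹))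
    simp only [Subgroup.coe_mul, hmulc x hx, h1] at h13
    rw [← Finset.sum_mul] at h13
    linear_combination (-1/2 : ℂ) * h13
  have htr : T.trace = q := by
    have h1 : T.trace = ∑ b : B, ∑ x ∈ SF A0, Ψ (b * x * (b : G)⁻¹) := by
      simp only [Matrix.trace, Matrix.diag_apply, T]
      apply Finset.sum_congr rfl
      intro b _
      symm
      apply Finset.sum_subset
      · intro x hx
        rw [mem_EE]
        exact ⟨i₀, mem_SF.1 hx⟩
      · intro x hx hx0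
        rw [mem_EE] at hx
        rw [mem_SF] at hx0
        obtain ⟨j, hj⟩ := hx
        have hji : j ≠ i₀ := by
          rintro rfl
          exact hx0 hj
        apply evrPsi_zero
        rintro ⟨σ, a, ha, hab⟩
        apply hx0
        have h2 : a⁻¹ * x ∈ S := by
          have h3 : x = (b : G)⁻¹ * (a * σ) * b := by
            rw [← hab]
            group
          have h4 := hKS (hcc a ha (b : G)⁻¹)
          have h5 := hS.conj_mem σ σ.2 (b : G)⁻¹
          have h6 := S.mul_mem h4 h5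
          have h7 : a⁻¹ * x = a⁻¹ * (b : G)⁻¹ * a * (b : G)⁻¹⁻¹ *
              ((b : G)⁻¹ * σ * (b : G)⁻¹⁻¹) := by
            rw [h3]
            group
          rw [h7]
          exact h6
        have h3 := h.K2 i₀ j hji.symm a⁻¹ (A0.inv_mem ha) x hj h2
        rw [h3, one_mul] at h2
        rw [hinter j x hj h2]
        exact A0.one_mem
    rw [h1, Finset.sum_comm, Finset.sum_eq_single (1 : G)]
    · have h2 : ∀ b : B, Ψ (b * 1 * (b : G)⁻¹) = 1 := by
        intro b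
        rw [mul_one, mul_inv_cancel, hΨ1]
      simp only [h2]
      rw [Finset.sum_const, Finset.card_univ, ← Nat.card_eq_fintype_card, h.cardA]
      simp
    · intro x hx hx1
      exact hzero x (mem_SF.1 hx) hx1
    · intro hh
      exact absurd (mem_SF.2 A0.one_mem) hh
  -- conclusion
  have hq0 : (q : ℂ) ≠ 0 := by
    exact_mod_cast (by omega : q ≠ 0)
  let Q : Matrix B B ℂ := (1 / 2 : ℂ) • (1 + (1 / (q : ℂ)) • T)
  have hQQ : Q * Q = Q := by
    have h1 : Q * Q = (1 / 2 * (1 / 2) : ℂ) •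
        ((1 + (1 / (q : ℂ)) • T) * (1 + (1 / (q : ℂ)) • T)) := by
      simp only [Q]
      rw [smul_mul_smul_comm]
    have h2 : (1 + (1 / (q : ℂ)) • T) * (1 + (1 / (q : ℂ)) • T) =
        1 + (1 / (q : ℂ)) • T + ((1 / (q : ℂ)) • T + (1 : Matrix B B ℂ)) := by
      rw [add_mul, one_mul, mul_add, mul_one, smul_mul_smul_comm, hTT, smul_smul]
      have h3 : 1 / (q : ℂ) * (1 / (q : ℂ)) * (q : ℂ) ^ 2 = 1 := by
        field_simp
      rw [h3, one_smul]
    rw [h1, h2]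
    simp only [Q]
    module
  obtain ⟨k, hk⟩ := evr_trace Q hQQ
  have h1 : Q.trace = (1 / 2 : ℂ) * (q + 1) := by
    simp only [Q, Matrix.trace_smul, Matrix.trace_add, Matrix.trace_one, htr, smul_eq_mul]
    rw [← Nat.card_eq_fintype_card, h.cardA]
    field_simp
  rw [h1] at hk
  have h2 : ((q + 1 : ℕ) : ℂ) = ((2 * k : ℕ) : ℂ) := by
    push_cast
    linear_combination 2 * hk
  have h3 : q + 1 = 2 * k := by exact_mod_cast h2
  have h4 : 2 ∣ q := by
    rw [hq]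
    exact dvd_pow_self 2 (by omega)
  omega

end main

end Pool.Agent.Helper90.ST
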